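import Pool.Agent.H454R3.Roy

/-!
# A Urysohn space whose degrees are not covered by any submetrizable space
-/

set_option autoImplicit false

namespace Pool.Agent.Results.MP_f6a885_lc.Separation

open Pool.Agent.H454R3.EDeg Pool.Agent.H454R3.Roy TopologicalSpace Topology

universe u

/-! ### The space -/

/-- The space. -/
def Sp : Type := ℕ → Pt

/-- The base of the space. -/
def base (u : ℕ) : Set Sp := {w | D u ⊆ code w}

instance : TopologicalSpace Sp := generateFrom (Set.range base)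

theorem D_or (u v : ℕ) : D (u ||| v) = D u ∪ D v := by
  ext i
  simp only [D, Set.mem_union, Set.mem_ofPred_eq, Nat.testBit_or, Bool.or_eq_true]

theorem D_pow (a : ℕ) : D (2 ^ a) = {a} := by
  ext i
  simp only [D, Set.mem_ofPred_eq, Nat.testBit_two_pow, decide_eq_true_eq, Set.mem_singleton_iff]
  exact eq_comm

theorem base_inter (u v : ℕ) : base u ∩ base v = base (u ||| v) := by
  ext w
  simp only [base, Set.mem_inter_iff, Set.mem_ofPred_eq, D_or, Set.union_subset_iff]

theorem isTopologicalBasis : IsTopologicalBasis (Set.range base) where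
  exists_subset_inter := by
    rintro _ ⟨u, rfl⟩ _ ⟨v, rfl⟩ w hw
    rw [base_inter] at hw
    exact ⟨_, ⟨u ||| v, rfl⟩, hw, by rw [← base_inter]⟩
  sUnion_eq := by
    rw [Set.eq_univ_iff_forall]
    intro w
    refine ⟨base 0, ⟨0, rfl⟩, ?_⟩
    intro i hi
    simp [D] at hi
  eq_generateFrom := rfl

theorem isOpen_mem (q : ℕ) : IsOpen {w : Sp | q ∈ code w} := by
  have h : {w : Sp | q ∈ code w} = base (2 ^ q) := by
    ext w
    simp only [base, Set.mem_ofPred_eq, D_pow, Set.singleton_subset_iff]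
  rw [h]
  exact isTopologicalBasis.isOpen ⟨_, rfl⟩

theorem mem_ev {w : ℕ → Pt} {i e : ℕ} : 2 * (2 * Nat.pair i e) ∈ code w ↔ Ev (w i) e := by
  unfold code
  rw [join_even, join_even]
  simp only [ZZ, Set.mem_ofPred_eq, Nat.unpair_pair]

theorem mem_not_ev {w : ℕ → Pt} {i e : ℕ} :
    2 * (2 * Nat.pair i e + 1) ∈ code w ↔ ¬ Ev (w i) e := by
  unfold code
  rw [join_even, join_odd]
  simp only [ZZ, Set.mem_compl_iff, Set.mem_ofPred_eq, Nat.unpair_pair]

theorem mem_le {w : ℕ → Pt} {i m : ℕ} : 2 * (2 * Nat.pair i m) + 1 ∈ code w ↔ Le (w i) m := by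
  unfold code
  rw [join_odd, hgp_even]

theorem mem_ge {w : ℕ → Pt} {i m : ℕ} :
    2 * (2 * Nat.pair i m + 1) + 1 ∈ code w ↔ Ge (w i) m := by
  unfold code
  rw [join_odd, hgp_odd]

theorem isOpen_ev (i e : ℕ) : IsOpen {w : Sp | Ev (w i) e} := by
  have h := isOpen_mem (2 * (2 * Nat.pair i e))
  have h2 : {w : Sp | 2 * (2 * Nat.pair i e) ∈ code w} = _ := Set.ext fun w => mem_ev (w := w)
  rw [h2] at h
  exact h

theorem isOpen_not_ev (i e : ℕ) : IsOpen {w : Sp | ¬ Ev (w i) e} := by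
  have h := isOpen_mem (2 * (2 * Nat.pair i e + 1))
  have h2 : {w : Sp | 2 * (2 * Nat.pair i e + 1) ∈ code w} = _ := Set.ext fun w => mem_not_ev (w := w)
  rw [h2] at h
  exact h

theorem isOpen_le (i m : ℕ) : IsOpen {w : Sp | Le (w i) m} := by
  have h := isOpen_mem (2 * (2 * Nat.pair i m) + 1)
  have h2 : {w : Sp | 2 * (2 * Nat.pair i m) + 1 ∈ code w} = _ := Set.ext fun w => mem_le (w := w)
  rw [h2] at h
  exact h

theorem isOpen_ge (i m : ℕ) : IsOpen {w : Sp | Ge (w i) m} := by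
  have h := isOpen_mem (2 * (2 * Nat.pair i m + 1) + 1)
  have h2 : {w : Sp | 2 * (2 * Nat.pair i m + 1) + 1 ∈ code w} = _ := Set.ext fun w => mem_ge (w := w)
  rw [h2] at h
  exact h

/-! ### The space is Urysohn -/

open Pt

/-- Different points with the same events are the two special points. -/
theorem eq_of_ev {a b : Pt} (hab : a ≠ b) (h : ∀ e, Ev a e ↔ Ev b e) :
    (a = o false ∧ b = o true) ∨ (a = o true ∧ b = o false) := by
  have key : ∀ (b1 : Bool) (s c : ℕ) (rs : List ℕ) (ot : Option ℕ),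
      ¬ ∀ e, Ev (o b1) e ↔ Ev (v s c rs ot) e := by
    intro b1 s c rs ot h
    exact (h (Nat.pair 0 (Nat.pair (rs.length + c) s))).2 (Or.inl rfl)
  rcases a with b1 | ⟨s, c, rs, ot⟩ <;> rcases b with b2 | ⟨s', c', rs', ot'⟩
  · cases b1 <;> cases b2 <;> simp_all
  · exact absurd h (key _ _ _ _ _)
  · exact absurd (fun e => (h e).symm) (key _ _ _ _ _)
  · exfalso
    apply hab
    -- the first event
    have h1 : s = s' ∧ rs.length + c = rs'.length + c' := by
      rcases (h (Nat.pair 0 (Nat.pair (rs.length + c) s))).1 (Or.inl rfl) with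
        h2 | ⟨t, -, h2⟩ | ⟨j, r, -, h2⟩
      · have h3 := (Nat.pair_eq_pair.1 (Nat.pair_eq_pair.1 h2).2)
        exact ⟨h3.2, h3.1⟩
      · have := (Nat.pair_eq_pair.1 h2).1; omega
      · have := (Nat.pair_eq_pair.1 h2).1; omega
    have hsub : ∀ (s c : ℕ) (rs : List ℕ) (ot : Option ℕ) (s' c' : ℕ) (rs' : List ℕ)
        (ot' : Option ℕ), (∀ e, Ev (v s c rs ot) e ↔ Ev (v s' c' rs' ot') e) →
        ∀ (j r : ℕ), rs[j]? = some r → rs'[j]? = some r := by
      intro s c rs ot s' c' rs' ot' h j r hj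
      rcases (h (Nat.pair (j + 2) r)).1 (Or.inr (Or.inr ⟨j, r, hj, rfl⟩)) with
        h2 | ⟨t, -, h2⟩ | ⟨j', r', h3, h2⟩
      · have := (Nat.pair_eq_pair.1 h2).1; omega
      · have := (Nat.pair_eq_pair.1 h2).1; omega
      · obtain ⟨h4, h5⟩ := Nat.pair_eq_pair.1 h2
        have h6 : j = j' := by omega
        rw [h6, h5]; exact h3
    have hrs : rs = rs' := by
      apply List.ext_getElem?
      intro j
      rcases hj : rs[j]? with _ | r
      · rcases hj' : rs'[j]? with _ | r'
        · rfl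
        · have := hsub _ _ _ _ _ _ _ _ (fun e => (h e).symm) j r' hj'
          rw [hj] at this; exact this
      · exact (hsub _ _ _ _ _ _ _ _ h j r hj).symm
    have hsub2 : ∀ (s c : ℕ) (rs : List ℕ) (ot : Option ℕ) (s' c' : ℕ) (rs' : List ℕ)
        (ot' : Option ℕ), (∀ e, Ev (v s c rs ot) e ↔ Ev (v s' c' rs' ot') e) →
        ∀ t, ot = some t → ot' = some t := by
      intro s c rs ot s' c' rs' ot' h t ht
      rcases (h (Nat.pair 1 (Nat.pair rs.length t))).1 (Or.inr (Or.inl ⟨t, ht, rfl⟩)) with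
        h2 | ⟨t', h3, h2⟩ | ⟨j', r', -, h2⟩
      · have := (Nat.pair_eq_pair.1 h2).1; omega
      · have h4 := (Nat.pair_eq_pair.1 (Nat.pair_eq_pair.1 h2).2).2
        rw [h4]; exact h3
      · have := (Nat.pair_eq_pair.1 h2).1; omega
    have hot : ot = ot' := by
      rcases ho : ot with _ | t
      · rcases ho' : ot' with _ | t'
        · rfl
        · have := hsub2 _ _ _ _ _ _ _ _ (fun e => (h e).symm) t' ho'
          rw [ho] at this; exact this
      · exact (hsub2 _ _ _ _ _ _ _ _ h t ho).symm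
    have hc : c = c' := by
      have := h1.2
      rw [hrs] at this
      omega
    rw [h1.1, hc, hrs, hot]

theorem sep_of_sets {w w' : Sp} {U V U' V' : Set Sp} (hU : IsOpen U) (hV : IsOpen V)
    (hU' : IsOpen U') (hV' : IsOpen V') (hw : w ∈ U) (hw' : w' ∈ V) (h1 : Disjoint U U')
    (h2 : Disjoint V V') (h3 : U' ∪ V' = Set.univ) :
    Disjoint ((𝓝 w).lift' closure) ((𝓝 w').lift' closure) := by
  refine ((𝓝 w).basis_sets.lift'_closure.disjoint_iff
    (𝓝 w').basis_sets.lift'_closure).2 ⟨U, hU.mem_nhds hw, V, hV.mem_nhds hw', ?_⟩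
  have h4 : closure U ⊆ U'ᶜ := closure_minimal (Set.disjoint_left.1 h1) hU'.isClosed_compl
  have h5 : closure V ⊆ V'ᶜ := closure_minimal (Set.disjoint_left.1 h2) hV'.isClosed_compl
  rw [Set.disjoint_left]
  intro x hx hx'
  have h6 : x ∈ U' ∪ V' := by rw [h3]; trivial
  rcases h6 with h6 | h6
  · exact h4 hx h6
  · exact h5 hx' h6

theorem le_or_ge (a : Pt) : Le a 1 ∨ Ge a 1 := by
  unfold Le Ge
  rcases h : val a with k | _ | _
  · rcases Nat.lt_or_ge k 2 with h1 | h1
    · exact Or.inl (Or.inr ⟨k, rfl, by omega⟩)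
    · exact Or.inr (Or.inr ⟨k, rfl, by omega⟩)
  · exact Or.inl (Or.inl rfl)
  · exact Or.inr (Or.inl rfl)

theorem disj_le (i : ℕ) : Disjoint {w : Sp | Le (w i) 0} {w : Sp | Ge (w i) 1} := by
  rw [Set.disjoint_left]
  intro w h1 h2
  have h1' : Le (w i) 0 := h1
  have h2' : Ge (w i) 1 := h2
  rcases h1' with h1' | ⟨k, h1', h3⟩ <;> rcases h2' with h2' | ⟨k', h2', h4⟩
  · rw [h1'] at h2'; cases h2'
  · rw [h1'] at h2'; cases h2'
  · rw [h1'] at h2'; cases h2'
  · rw [h1'] at h2'; cases h2'; omega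

theorem disj_ge (i : ℕ) : Disjoint {w : Sp | Ge (w i) 2} {w : Sp | Le (w i) 1} := by
  rw [Set.disjoint_left]
  intro w h1 h2
  have h1' : Ge (w i) 2 := h1
  have h2' : Le (w i) 1 := h2
  rcases h1' with h1' | ⟨k, h1', h3⟩ <;> rcases h2' with h2' | ⟨k', h2', h4⟩
  · rw [h1'] at h2'; cases h2'
  · rw [h1'] at h2'; cases h2'
  · rw [h1'] at h2'; cases h2'
  · rw [h1'] at h2'; cases h2'; omega

instance : T25Space Sp where
  t2_5 := by
    intro w w' hne
    obtain ⟨i, hi⟩ := Function.ne_iff.1 (show (fun n => w n) ≠ fun n => w' n from hne)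
    by_cases hev : ∀ e, Ev (w i) e ↔ Ev (w' i) e
    · have hun : {w : Sp | Ge (w i) 1} ∪ {w : Sp | Le (w i) 1} = Set.univ := by
        rw [Set.eq_univ_iff_forall]
        intro x
        rcases le_or_ge (x i) with h | h
        exacts [Or.inr h, Or.inl h]
      rcases eq_of_ev hi hev with ⟨h1, h2⟩ | ⟨h1, h2⟩
      · refine sep_of_sets (isOpen_le i 0) (isOpen_ge i 2) (isOpen_ge i 1) (isOpen_le i 1)
          ?_ ?_ (disj_le i) (disj_ge i) hun
        · show Le (w i) 0
          rw [h1]; exact Or.inl rfl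
        · show Ge (w' i) 2
          rw [h2]; exact Or.inl rfl
      · refine (sep_of_sets (isOpen_le i 0) (isOpen_ge i 2) (isOpen_ge i 1) (isOpen_le i 1)
          ?_ ?_ (disj_le i) (disj_ge i) hun).symm
        · show Le (w' i) 0
          rw [h2]; exact Or.inl rfl
        · show Ge (w i) 2
          rw [h1]; exact Or.inl rfl
    · push Not at hev
      obtain ⟨e, he⟩ := hev
      have hd : Disjoint {w : Sp | Ev (w i) e} {w : Sp | ¬ Ev (w i) e} := by
        rw [Set.disjoint_left]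
        exact fun x h1 h2 => h2 h1
      have hun : {w : Sp | ¬ Ev (w i) e} ∪ {w : Sp | Ev (w i) e} = Set.univ := by
        rw [Set.eq_univ_iff_forall]
        intro x
        by_cases h : Ev (x i) e
        exacts [Or.inr h, Or.inl h]
      rcases he with ⟨h1, h2⟩ | ⟨h1, h2⟩
      · exact sep_of_sets (isOpen_ev i e) (isOpen_not_ev i e) (isOpen_not_ev i e)
          (isOpen_ev i e) h1 h2 hd hd.symm hun
      · exact (sep_of_sets (isOpen_ev i e) (isOpen_not_ev i e) (isOpen_not_ev i e)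
          (isOpen_ev i e) h2 h1 hd hd.symm hun).symm

/-! ### Conclusion -/

theorem nbase_near {x w : ℕ → Pt} {q m : ℕ} (hq : q ∈ Nbase base x) (hqm : q < m)
    (h : ∀ i < m, Near m (x i) (w i)) : q ∈ Nbase base w := by
  intro i hi
  exact code_near (hq hi) (by have := D_bound hi; omega) h

theorem nbase_ne {x y : ℕ → Pt} {i : ℕ} (h1 : x i = o false) (h2 : y i = o true) :
    Nbase base x ≠ Nbase base y := by
  intro h
  have h3 : 2 * (2 * Nat.pair i 0) + 1 ∈ code x := by
    rw [mem_le, h1]; exact Or.inl rfl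
  have h4 : 2 ^ (2 * (2 * Nat.pair i 0) + 1) ∈ Nbase base x := by
    show D _ ⊆ _
    rw [D_pow]
    exact Set.singleton_subset_iff.2 h3
  rw [h] at h4
  have h5 : D (2 ^ (2 * (2 * Nat.pair i 0) + 1)) ⊆ code y := h4
  rw [D_pow, Set.singleton_subset_iff, mem_le, h2] at h5
  rcases h5 with h5 | ⟨k, h5, -⟩ <;> simp [val] at h5

/-- **Answer to Q1 (positive).** There is a represented Urysohn space `X` such that, for every
represented submetrizable space `Y`, some point of `X` is not of `Y`-degree. -/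
theorem result : ∃ (X : Type) (_ : TopologicalSpace X) (_ : T25Space X) (β : ℕ → Set X),
    IsTopologicalBasis (Set.range β) ∧
    ∀ (Y : Type u) [TopologicalSpace Y], Submetrizable Y → ∀ U : ℕ → Set Y,
      IsTopologicalBasis (Set.range U) → ∃ x : X, ∀ y : Y, ¬ EEqv (Nbase U y) (Nbase β x) := by
  refine ⟨Sp, inferInstance, inferInstance, base, isTopologicalBasis, ?_⟩
  intro Y _ hY U hU
  exact key' (fun w => Nbase base w) (fun h1 h2 h3 => nbase_near h1 h2 h3)
    (fun h1 h2 => nbase_ne h1 h2) Y hY U hU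

end Pool.Agent.Results.MP_f6a885_lc.Separation
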